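import Pool.Agent.U481.HW.Asm

/-!
# MP_945c9c_an: all weights for the Hilbert transform on functions of mean zero

Let `1 < p < ∞` and let `U` be a weight on the line. The inequality
`∫ |Hf|^p U ≤ C ∫ |f|^p U` holds for all integrable `f` with `∫ f = 0` if and only if one of the following
holds: `U ∈ A_p`; or `U(x) = |x - a|^p W(x)` with a real `a` and `W ∈ A_p`; or
`U(x) = (1 + |x|)^p W(x)` with `W ∈ A_p`.

Necessity. Put `σ = U^(-1/(p-1))`. Test functions give (doubling) `U(I) ≤ C U(J)` for adjacent intervals of the same
length, (1) `U(I) min(σ(I), σ({|y-a| > 8h}))^(p-1) ≤ C h^p` for `I = (a, a+h)`, and (2) for every `I = (a, a+h)`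
there is `c` in the closure of `I` with `U(I) (∫_I |y-c|^(p/(p-1)) σ)^(p-1) ≤ C h^(2p)`. If `σ` is not integrable at
infinity then (1) is the `A_p` condition. If `σ` is not integrable near some `a`, then (2) forces `c = a`, and
(1), the doubling property and Hölder's inequality show that the tails of `σ` grow geometrically towards `a`;
this sums to the `A_p` condition of `|x-a|^(-p) U`. If `σ` is integrable the same argument works at large scales.

Sufficiency. `(x - a) Hf = H((y - a) f)` for `f` of mean zero, and `H` is bounded in `L^p(W)` for `W ∈ A_p`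
(Hunt-Muckenhoupt-Wheeden); this theorem is proved here by sparse domination, from the weak type (1,1) bound
of the Hilbert transform of the library `Pool.Dav`.

The parts of the formal proof were written by helpers 7, 83, 111, 195, 211, 263, 312, 346, 399, 433, 464,
606, 873, 876, 890, 901 (packages) and 481 (idea, statements, the deduction of the classes, assembly).
-/

set_option autoImplicit false

open MeasureTheory Filter Topology Set
open scoped ENNReal NNReal

namespace Pool.Agent.Results.MP_945c9c_an.MeanZeroWeights

open Pool.Agent.U481.HW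

/-- **Characterization of the weights for the Hilbert transform on functions of mean zero.** -/
theorem result (p : ℝ) (hp : 1 < p) (U : ℝ → ℝ≥0) (hU : IsWeight U) :
    Admissible p U ↔
      Ap p U ∨
      (∃ a : ℝ, ∃ W : ℝ → ℝ≥0, Ap p W ∧ ∀ᵐ x, (U x : ℝ) = |x - a| ^ p * W x) ∨
      ∃ W : ℝ → ℝ≥0, Ap p W ∧ ∀ᵐ x, (U x : ℝ) = (1 + |x|) ^ p * W x :=
  admissible_iff p hp U hU

end Pool.Agent.Results.MP_945c9c_an.MeanZeroWeights
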